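import Pool.Agent.Lib.Unf.Final

/-! # MP_086e3e_co, Q1: exponentially many convex Hamiltonian unfoldings

The answer to Q1 is yes. The definitions of the doubly covered polygon, cut paths, combinatorial
cut trees, unfoldings and congruence are in `Pool.Agent.Lib.Unf.Defs`. -/

namespace Pool.Agent.Results.MP_086e3e_co.ConvexHamiltonian

open Unf Filter

/-- There is `c > 0` such that for every large `n` some doubly covered convex `n`-gon has at least
`2 ^ (c n)` cut paths with pairwise different combinatorial cut trees, each of which has an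
unfolding, all unfoldings of which are convex polygons, and no unfolding of one of which is
congruent to an unfolding of another. -/
theorem result : ∃ c : ℝ, 0 < c ∧ ∀ᶠ n : ℕ in atTop, ∃ v : Fin n → ℂ, IsConvexNGon v ∧
    ∃ F : Finset (CutPath v), (2 : ℝ) ^ (c * n) ≤ F.card ∧
      (∀ p ∈ F, (∃ U, IsUnfolding (convexHull ℝ (Set.range v)) p.cutSet U) ∧
        ∀ U, IsUnfolding (convexHull ℝ (Set.range v)) p.cutSet U → IsConvexPolygon U) ∧
      (∀ p ∈ F, ∀ q ∈ F, p ≠ q → p.tree ≠ q.tree ∧
        ∀ U V, IsUnfolding (convexHull ℝ (Set.range v)) p.cutSet U →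
          IsUnfolding (convexHull ℝ (Set.range v)) q.cutSet V → ¬ Congruent U V) := by
  refine ⟨1 / 2, by norm_num, ?_⟩
  filter_upwards [(tendsto_sub_atTop_nat 1).eventually growth, eventually_ge_atTop 6] with n hn h6
  obtain ⟨N, rfl⟩ : ∃ N, n = N + 1 := ⟨n - 1, by omega⟩
  obtain ⟨hv, F, hF, h1, h2⟩ := family N (by omega)
  exact ⟨vf N, hv, F, hn F.card (by simpa using hF), h1, h2⟩

end Pool.Agent.Results.MP_086e3e_co.ConvexHamiltonian
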